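import Pool.Agent.Y405.LW.Cay

/-!
# Enlarging the image of a univalent map inside a prescribed region
-/

set_option autoImplicit false

open Set Filter Topology Complex Metric

noncomputable section

namespace Y405LW

open LW242

theorem s_b0 (hR : S_RMT) (hC : S_COMPL) (hF : S_FILL) : S_B0 := by
  intro f V q hf hVo hVH hV hqV hqf hqc
  obtain ⟨hfd, hfm, hfi⟩ := hf
  set Fd : ℂ → ℂ := fun w => cay (f (yac w)) with hFd
  set D : Set ℂ := Fd '' ball 0 1 with hD
  have hFdd : DifferentiableOn ℂ Fd (ball 0 1) :=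
    cay_diff.comp (hfd.comp yac_diff fun w hw => yac_mem hw) fun w hw => hfm (yac_mem hw)
  have hFdi : InjOn Fd (ball 0 1) := fun x hx y hy h =>
    yac_inj hx hy (hfi (yac_mem hx) (yac_mem hy)
      (cay_inj (hfm (yac_mem hx)) (hfm (yac_mem hy)) h))
  have hDb : D ⊆ ball 0 1 := by
    rintro _ ⟨w, hw, rfl⟩
    exact cay_mem (hfm (yac_mem hw))
  have hmemD : ∀ w ∈ ball (0 : ℂ) 1, (w ∈ D ↔ yac w ∈ f '' Hp) := by
    intro w hw
    constructor
    · rintro ⟨v, hv, rfl⟩
      refine ⟨yac v, yac_mem hv, ?_⟩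
      rw [hFd]
      exact (yac_cay (hfm (yac_mem hv))).symm
    · rintro ⟨z, hz, hz1⟩
      refine ⟨cay z, cay_mem hz, ?_⟩
      rw [hFd]
      simp only
      rw [yac_cay hz, hz1, cay_yac hw]
  have hDo : IsOpen D := isOpen_image isOpen_ball (convex_ball 0 1).isPreconnected
    ball_nontrivial hFdd hFdi
  have hDc : IsConnected D :=
    ((convex_ball (0 : ℂ) 1).isConnected ball_nontrivial.nonempty).image _ hFdd.continuousOn
  have hDcc : IsConnected Dᶜ := hC Fd hFdd hFdi (isBounded_ball.subset hDb)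
  set Vd : Set ℂ := ball 0 1 ∩ yac ⁻¹' V with hVd
  have hVdo : IsOpen Vd := yac_diff.continuousOn.isOpen_inter_preimage isOpen_ball hVo
  have hqH : q ∈ Hp := hVH hqV
  have hqd : cay q ∈ Vd := ⟨cay_mem hqH, by rw [mem_preimage, yac_cay hqH]; exact hqV⟩
  obtain ⟨ρ, hρ, hρV⟩ := nhds_basis_closedBall.mem_iff.1 (hVdo.mem_nhds hqd)
  have hcl : closure Vd ∩ ball 0 1 ⊆ Vd ∪ D := by
    rintro w ⟨hwc, hwb⟩
    have hcont : ContinuousAt yac w := yac_diff.continuousOn.continuousAt (isOpen_ball.mem_nhds hwb)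
    have h1 : yac w ∈ closure (yac '' Vd) := mem_closure_image hcont hwc
    have h2 : yac w ∈ closure V := closure_mono (by
      rintro _ ⟨v, hv, rfl⟩
      exact hv.2) h1
    rcases hV _ (yac_mem hwb) h2 with h3 | h3
    · exact Or.inl ⟨hwb, h3⟩
    · exact Or.inr ((hmemD w hwb).2 h3)
  have hqD : cay q ∉ D := by
    intro h
    have := (hmemD _ (cay_mem hqH)).1 h
    rw [yac_cay hqH] at this
    exact hqf this
  have hqDc : cay q ∈ closure D := by
    have hcont : ContinuousAt cay q := cay_diff.continuousOn.continuousAt (isOpenHp.mem_nhds hqH)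
    refine closure_mono ?_ (mem_closure_image hcont hqc)
    rintro _ ⟨p, ⟨z, hz, rfl⟩, rfl⟩
    refine (hmemD _ (cay_mem (hfm hz))).2 ?_
    rw [yac_cay (hfm hz)]
    exact ⟨z, hz, rfl⟩
  obtain ⟨W, hWo, hWc, hWcc, hDW, hWb, hWD, hWne⟩ := hF D Vd (cay q) ρ hDo hDc hDb hDcc hVdo
    inter_subset_left hρ hρV hqDc hqD hcl
  obtain ⟨G, hGd, hGi, hGW⟩ := hR W hWo hWc (isBounded_ball.subset hWb) hWcc
  have hGm : ∀ w ∈ ball (0 : ℂ) 1, G w ∈ ball (0 : ℂ) 1 := fun w hw =>
    hWb (hGW ▸ mem_image_of_mem G hw)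
  have hmemF : ∀ p ∈ Hp, (p ∈ (fun z => yac (G (cay z))) '' Hp ↔ cay p ∈ W) := by
    intro p hp
    constructor
    · rintro ⟨z, hz, rfl⟩
      simp only
      rw [cay_yac (hGm _ (cay_mem hz)), ← hGW]
      exact mem_image_of_mem G (cay_mem hz)
    · intro h
      rw [← hGW] at h
      obtain ⟨w, hw, hw1⟩ := h
      refine ⟨yac w, yac_mem hw, ?_⟩
      simp only
      rw [cay_yac hw, hw1, yac_cay hp]
  have hFH : MapsTo (fun z => yac (G (cay z))) Hp Hp := fun z hz =>
    yac_mem (hGm _ (cay_mem hz))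
  refine ⟨fun z => yac (G (cay z)), ⟨?_, hFH, ?_⟩, ?_, ?_, ?_, ?_⟩
  · exact yac_diff.comp (hGd.comp cay_diff fun z hz => cay_mem hz)
      fun z hz => hGm _ (cay_mem hz)
  · intro x hx y hy h
    exact cay_inj hx hy (hGi (cay_mem hx) (cay_mem hy)
      (yac_inj (hGm _ (cay_mem hx)) (hGm _ (cay_mem hy)) h))
  · rintro _ ⟨z, hz, rfl⟩
    refine (hmemF _ (hfm hz)).2 (hDW (Or.inl ?_))
    refine (hmemD _ (cay_mem (hfm hz))).2 ?_
    rw [yac_cay (hfm hz)]
    exact ⟨z, hz, rfl⟩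
  · exact (hmemF _ hqH).2 (hDW (Or.inr (mem_ball_self hρ)))
  · intro p hp hpf
    have hpH : p ∈ Hp := by
      obtain ⟨z, hz, rfl⟩ := hp
      exact hFH hz
    have h1 : cay p ∈ W := (hmemF p hpH).1 hp
    have h2 : cay p ∉ D := by
      intro h
      have := (hmemD _ (cay_mem hpH)).1 h
      rw [yac_cay hpH] at this
      exact hpf this
    have h3 := (hWD ⟨h1, h2⟩).2
    rw [mem_preimage, yac_cay hpH] at h3
    exact h3
  · intro h
    apply hWne
    refine Subset.antisymm hWb fun w hw => ?_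
    have h1 : yac w ∈ (fun z => yac (G (cay z))) '' Hp := by
      rw [h]
      exact yac_mem hw
    have := (hmemF _ (yac_mem hw)).1 h1
    rwa [cay_yac hw] at this

end Y405LW
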