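import Pool.Agent.Y405.LW.Cay
import Pool.Agent.H801R2.CX.Borsuk

/-!
# The complement of a bounded univalent image of the disc is connected
-/

set_option autoImplicit false

open Set Filter Topology Complex Metric

noncomputable section

namespace Y405LW

open LW242 Pool.Agent.H801R2.CX

/-- The inverse of a continuous injective map on a compact set is continuous. -/
theorem inv_cont {C : Set ℂ} {F : ℂ → ℂ} (hC : IsCompact C) (hF : ContinuousOn F C)
    (hi : InjOn F C) : ContinuousOn (Function.invFunOn F C) (F '' C) := by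
  rw [continuousOn_iff_isClosed]
  intro T hT
  have hCT : IsCompact (C ∩ T) := hC.inter_right hT
  refine ⟨F '' (C ∩ T), (hCT.image_of_continuousOn (hF.mono inter_subset_left)).isClosed, ?_⟩
  ext p
  constructor
  · rintro ⟨h1, z, hz, rfl⟩
    refine ⟨⟨z, ⟨hz, ?_⟩, rfl⟩, mem_image_of_mem F hz⟩
    rw [mem_preimage, hi.leftInvOn_invFunOn hz] at h1
    exact h1
  · rintro ⟨⟨z, ⟨hz, hzT⟩, rfl⟩, h2⟩
    refine ⟨?_, h2⟩
    rw [mem_preimage, hi.leftInvOn_invFunOn hz]
    exact hzT

theorem compl_ball {h : ℂ → ℂ} (hd : DifferentiableOn ℂ h (ball 0 1)) (hi : InjOn h (ball 0 1))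
    {ρ : ℝ} (hρ0 : 0 < ρ) (hρ1 : ρ < 1) : IsConnected (h '' closedBall 0 ρ)ᶜ := by
  have hsub : closedBall (0 : ℂ) ρ ⊆ ball 0 1 := closedBall_subset_ball hρ1
  have hcc : ContinuousOn h (closedBall 0 ρ) := hd.continuousOn.mono hsub
  have hc : IsCompact (h '' closedBall 0 ρ) := (isCompact_closedBall _ _).image_of_continuousOn hcc
  apply borsuk hc
  intro q hq
  set π : ℂ → ℂ := fun ζ => ((ρ / max ρ ‖ζ‖ : ℝ) : ℂ) * ζ with hπ
  have hmax : ∀ ζ : ℂ, 0 < max ρ ‖ζ‖ := fun ζ => lt_of_lt_of_le hρ0 (le_max_left _ _)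
  have hπc : Continuous π := by
    rw [hπ]
    apply Continuous.mul _ continuous_id
    apply Complex.continuous_ofReal.comp
    apply Continuous.div continuous_const (by fun_prop)
    intro ζ
    exact (hmax ζ).ne'
  have hπm : ∀ ζ, π ζ ∈ closedBall (0 : ℂ) ρ := by
    intro ζ
    rw [mem_closedBall_zero_iff, hπ]
    simp only
    rw [norm_mul, Complex.norm_real, Real.norm_of_nonneg (div_nonneg hρ0.le (hmax ζ).le),
      div_mul_eq_mul_div, div_le_iff₀ (hmax ζ)]
    exact mul_le_mul_of_nonneg_left (le_max_right _ _) hρ0.le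
  have hπid : ∀ ζ ∈ closedBall (0 : ℂ) ρ, π ζ = ζ := by
    intro ζ hζ
    rw [mem_closedBall_zero_iff] at hζ
    rw [hπ]
    simp only
    rw [max_eq_left hζ, div_self hρ0.ne']
    simp
  have hFc : Continuous (fun ζ => h (π ζ) - q) :=
    (hcc.comp_continuous hπc hπm).sub continuous_const
  have hF0 : ∀ ζ, h (π ζ) - q ≠ 0 := by
    intro ζ h0
    apply hq
    rw [← sub_eq_zero.1 h0]
    exact ⟨π ζ, hπm ζ, rfl⟩
  obtain ⟨a, ha1, ha2, -⟩ := exists_log isOpen_univ simplyConnected_univ
    (q := fun ζ => h (π ζ) - q)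
    hFc.continuousOn (fun z _ => hF0 z) (a := 0) (mem_univ _)
    (b := Complex.log (h (π 0) - q)) (Complex.exp_log (hF0 0))
  set g : ℂ → ℂ := Function.invFunOn h (closedBall 0 ρ) with hg
  have hgc : ContinuousOn g (h '' closedBall 0 ρ) :=
    inv_cont (isCompact_closedBall _ _) hcc (hi.mono hsub)
  refine ⟨fun z => a (g z), ?_, ?_⟩
  · exact ha1.comp hgc (fun _ _ => mem_univ _)
  · rintro _ ⟨ζ, hζ, rfl⟩
    have hgz : g (h ζ) = ζ := (hi.mono hsub).leftInvOn_invFunOn hζ
    simp only
    rw [hgz, ha2 _ (mem_univ _), hπid _ hζ]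

theorem key_sep {F : ℂ → ℂ} (hd : DifferentiableOn ℂ F (ball 0 1)) (hi : InjOn F (ball 0 1))
    {A B : Set ℂ} (hA : IsClosed A) (hB : IsCompact B) (hAB : Disjoint A B)
    (hcov : (F '' ball 0 1)ᶜ ⊆ A ∪ B) (hAD : A ⊆ (F '' ball 0 1)ᶜ) (hBD : B ⊆ (F '' ball 0 1)ᶜ)
    (hAn : A.Nonempty) (hBn : B.Nonempty) : False := by
  obtain ⟨δ, hδ, hdis⟩ := hAB.symm.exists_thickenings hB hA
  set K : Set ℂ := {z | infDist z B = δ / 2} with hK
  have hcont : Continuous (fun z : ℂ => infDist z B) := continuous_infDist_pt B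
  have hKc : IsClosed K := isClosed_eq hcont continuous_const
  have hKb : Bornology.IsBounded K := by
    refine (hB.isBounded.thickening (δ := δ)).subset fun z hz => ?_
    have hz' : infDist z B = δ / 2 := hz
    exact (mem_thickening_iff_infDist_lt hBn).2 (by linarith)
  have hKcomp : IsCompact K := Metric.isCompact_of_isClosed_isBounded hKc hKb
  have hAfar : ∀ z ∈ A, δ ≤ infDist z B := by
    intro z hz
    by_contra hlt
    push Not at hlt
    have h1 : z ∈ thickening δ B := (mem_thickening_iff_infDist_lt hBn).2 hlt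
    exact disjoint_left.1 hdis h1 (self_subset_thickening hδ A hz)
  have hKD : K ⊆ F '' ball 0 1 := by
    intro z hz
    by_contra hzD
    have hz' : infDist z B = δ / 2 := hz
    rcases hcov hzD with h | h
    · have := hAfar z h
      linarith
    · have := infDist_zero_of_mem h
      linarith
  set r : ℕ → ℝ := fun n => 1 - 1 / ((n : ℝ) + 2) with hr
  have hr0 : ∀ n, 0 < r n := by
    intro n
    have h2 : (1 : ℝ) / ((n : ℝ) + 2) < 1 := by
      rw [div_lt_one (by positivity)]
      linarith [(Nat.cast_nonneg n : (0 : ℝ) ≤ n)]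
    simp only [hr]
    linarith
  have hr1 : ∀ n, r n < 1 := by
    intro n
    have h2 : (0 : ℝ) < 1 / ((n : ℝ) + 2) := by positivity
    simp only [hr]
    linarith
  have hmono : Monotone r := by
    intro m n hmn
    have : (m : ℝ) ≤ n := by exact_mod_cast hmn
    simp only [hr]
    have h2 : (1 : ℝ) / ((n : ℝ) + 2) ≤ 1 / ((m : ℝ) + 2) :=
      one_div_le_one_div_of_le (by positivity) (by linarith)
    linarith
  obtain ⟨n, hn⟩ := hKcomp.elim_directed_cover (fun n => F '' ball 0 (r n))
    (fun n => isOpen_image isOpen_ball (convex_ball 0 _).isPreconnected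
      ⟨0, by simpa using hr0 n, ((r n / 2 : ℝ) : ℂ), by
        rw [mem_ball_zero_iff, Complex.norm_real, Real.norm_of_nonneg (by linarith [hr0 n])]
        linarith [hr0 n], by
        intro h
        have := congrArg Complex.re h
        simp at this
        linarith [hr0 n]⟩
      (hd.mono (ball_subset_ball (hr1 n).le)) (hi.mono (ball_subset_ball (hr1 n).le)))
    (by
      intro z hz
      obtain ⟨w, hw, rfl⟩ := hKD hz
      rw [mem_ball_zero_iff] at hw
      obtain ⟨n, hn⟩ := exists_nat_gt (1 / (1 - ‖w‖))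
      rw [mem_iUnion]
      refine ⟨n, w, ?_, rfl⟩
      rw [mem_ball_zero_iff]
      have h1 : 0 < 1 - ‖w‖ := by linarith
      have h2 : 1 / ((n : ℝ) + 2) < 1 - ‖w‖ := by
        rw [div_lt_iff₀ (by positivity)]
        rw [div_lt_iff₀ h1] at hn
        nlinarith
      simp only [hr]
      linarith)
    (directed_of_isDirected_le fun m n hmn => image_mono (ball_subset_ball (hmono hmn)))
  have hconn := (compl_ball hd hi (hr0 n) (hr1 n)).isPreconnected
  have hKr : K ⊆ F '' closedBall 0 (r n) := hn.trans (image_mono ball_subset_closedBall)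
  have hDr : (F '' ball 0 1)ᶜ ⊆ (F '' closedBall 0 (r n))ᶜ :=
    compl_subset_compl.2 (image_mono (closedBall_subset_ball (hr1 n)))
  have hsplit : (F '' closedBall 0 (r n))ᶜ ⊆ {z | infDist z B < δ / 2} ∪ {z | δ / 2 < infDist z B} := by
    intro z hz
    rcases lt_trichotomy (infDist z B) (δ / 2) with h | h | h
    · exact Or.inl h
    · exact absurd (hKr h) hz
    · exact Or.inr h
  rcases hconn.subset_or_subset (isOpen_lt hcont continuous_const)
    (isOpen_lt continuous_const hcont)
    (disjoint_left.2 fun z h1 h2 => lt_asymm (show infDist z B < δ / 2 from h1) h2) hsplit with h | h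
  · obtain ⟨a, ha⟩ := hAn
    have h1 : infDist a B < δ / 2 := h (hDr (hAD ha))
    have h2 := hAfar a ha
    linarith
  · obtain ⟨b, hb⟩ := hBn
    have h1 : δ / 2 < infDist b B := h (hDr (hBD hb))
    have h2 := infDist_zero_of_mem hb
    linarith

theorem s_compl : S_COMPL := by
  intro F hd hi hb
  set D : Set ℂ := F '' ball 0 1 with hD
  have hDo : IsOpen D := isOpen_image isOpen_ball (convex_ball 0 1).isPreconnected
    ball_nontrivial hd hi
  obtain ⟨R0, hR0⟩ := hb.subset_closedBall (0 : ℂ)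
  set R : ℝ := max R0 0 with hR
  have hR00 : 0 ≤ R := le_max_right _ _
  have hDR : D ⊆ closedBall 0 R := hR0.trans (closedBall_subset_closedBall (le_max_left _ _))
  have hfar : {z : ℂ | R < ‖z‖} ⊆ Dᶜ := by
    intro z hz hzD
    have := hDR hzD
    rw [mem_closedBall_zero_iff] at this
    exact absurd this (not_le.2 hz)
  have hp0 : (((R + 1 : ℝ)) : ℂ) ∈ {z : ℂ | R < ‖z‖} := by
    change R < ‖((R + 1 : ℝ) : ℂ)‖
    rw [Complex.norm_real, Real.norm_of_nonneg (by linarith)]
    linarith
  have hDcl : IsClosed Dᶜ := hDo.isClosed_compl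
  refine ⟨⟨_, hfar hp0⟩, ?_⟩
  rw [isPreconnected_iff_subset_of_fully_disjoint_closed hDcl]
  have main : ∀ u v : Set ℂ, IsClosed u → IsClosed v → Dᶜ ⊆ u ∪ v → Disjoint u v →
      {z : ℂ | R < ‖z‖} ⊆ u → Dᶜ ⊆ u := by
    intro u v hu hv huv hdis hfu
    by_contra hnot
    obtain ⟨b, hbD, hbu⟩ := not_subset.1 hnot
    have hbv : b ∈ v := (huv hbD).resolve_left hbu
    have hBc : IsCompact (Dᶜ ∩ v) := by
      refine (isCompact_closedBall (0 : ℂ) R).of_isClosed_subset (hDcl.inter hv) ?_
      rintro z ⟨-, hz⟩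
      rw [mem_closedBall_zero_iff]
      by_contra hlt
      exact disjoint_left.1 hdis (hfu (not_le.1 hlt)) hz
    refine key_sep hd hi (A := Dᶜ ∩ u) (B := Dᶜ ∩ v) (hDcl.inter hu) hBc ?_ ?_ inter_subset_left
      inter_subset_left ⟨_, hfar hp0, hfu hp0⟩ ⟨b, hbD, hbv⟩
    · exact hdis.mono inter_subset_right inter_subset_right
    · intro z hz
      rcases huv hz with h | h
      · exact Or.inl ⟨hz, h⟩
      · exact Or.inr ⟨hz, h⟩
  intro u v hu hv huv hdis
  have hpre := far_preconnected hR00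
  rcases isPreconnected_iff_subset_of_disjoint_closed.1 hpre u v hu hv (hfar.trans huv) (by
    rw [hdis.inter_eq, inter_empty]) with h | h
  · exact Or.inl (main u v hu hv huv hdis h)
  · exact Or.inr (main v u hv hu (by rwa [union_comm]) hdis.symm h)

end Y405LW
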