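import Pool.Agent.Y242.LW.Stm

/-!
# The maximum principle in the half-plane with finitely many exceptional boundary points
-/

set_option autoImplicit false

open Set Filter Topology Complex Metric

noncomputable section

namespace Y405LW

open LW242

/-- The factor which vanishes at `t`. -/
def b1 (t : ℝ) (z : ℂ) : ℂ := (z - t) / (z - t + I)

/-- The factor which vanishes at infinity. -/
def b0 (z : ℂ) : ℂ := I / (z + I)

theorem isOpen_Hp : IsOpen Hp := isOpen_lt continuous_const continuous_im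

theorem preconnected_Hp : IsPreconnected Hp := by
  have : Convex ℝ Hp := convex_halfSpace_im_gt 0
  exact this.isPreconnected

theorem den1 (t : ℝ) {z : ℂ} (hz : 0 ≤ z.im) : z - t + I ≠ 0 := by
  intro h
  have := congrArg Complex.im h
  simp at this
  linarith

theorem den0 {z : ℂ} (hz : 0 ≤ z.im) : z + I ≠ 0 := by
  intro h
  have := congrArg Complex.im h
  simp at this
  linarith

theorem im_div {w : ℂ} (hw : 1 < w.im) : 0 < (I / w).re ∧ (I / w).re < 1 := by
  have hw0 : 0 < normSq w := by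
    rw [normSq_apply]
    nlinarith [mul_self_nonneg w.re]
  have h : (I / w).re = w.im / normSq w := by
    rw [Complex.div_re]
    simp
  rw [h]
  refine ⟨by positivity, ?_⟩
  rw [div_lt_one hw0, normSq_apply]
  nlinarith [mul_self_nonneg w.re]

theorem b0_slit {z : ℂ} (hz : z ∈ Hp) : b0 z ∈ slitPlane := by
  rw [mem_slitPlane_iff]
  left
  exact (im_div (w := z + I) (by simp [Hp] at hz ⊢; exact hz)).1

theorem b1_slit (t : ℝ) {z : ℂ} (hz : z ∈ Hp) : b1 t z ∈ slitPlane := by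
  rw [mem_slitPlane_iff]
  left
  have h := (im_div (w := z - t + I) (by simp [Hp] at hz ⊢; exact hz)).2
  have hd := den1 t (z := z) (le_of_lt hz)
  have e : b1 t z = 1 - I / (z - t + I) := by
    rw [b1]
    field_simp
    ring
  rw [e, sub_re, one_re]
  linarith

theorem b1_norm (t : ℝ) {z : ℂ} (hz : z ∈ Hp) : ‖b1 t z‖ ≤ 1 := by
  have hz' : 0 < z.im := hz
  rw [b1, norm_div]
  refine div_le_one_of_le₀ ?_ (norm_nonneg _)
  rw [← sq_le_sq₀ (norm_nonneg _) (norm_nonneg _), ← normSq_eq_norm_sq, ← normSq_eq_norm_sq,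
    normSq_apply, normSq_apply]
  simp
  nlinarith

theorem b0_norm {z : ℂ} : ‖b0 z‖ = 1 / ‖z + I‖ := by
  rw [b0, norm_div, norm_I]

theorem norm_ge {z : ℂ} (hz : z ∈ Hp) : 1 ≤ ‖z + I‖ := by
  have hz' : 0 < z.im := hz
  have := Complex.abs_im_le_norm (z + I)
  simp at this
  rw [abs_of_pos (by linarith)] at this
  linarith

theorem b0_norm_le {z : ℂ} (hz : z ∈ Hp) : ‖b0 z‖ ≤ 1 := by
  rw [b0_norm]
  exact div_le_one_of_le₀ (norm_ge hz) (norm_nonneg _)

/-- The product of the factors. -/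
def GG (E : Finset ℝ) (η : ℝ) (z : ℂ) : ℂ :=
  (∏ t ∈ E, b1 t z ^ (η : ℂ)) * b0 z ^ (η : ℂ)

theorem GG_norm (E : Finset ℝ) (η : ℝ) (z : ℂ) :
    ‖GG E η z‖ = (∏ t ∈ E, ‖b1 t z‖ ^ η) * ‖b0 z‖ ^ η := by
  rw [GG, norm_mul, norm_prod]
  simp only [Complex.norm_cpow_real]

theorem prod_le (E : Finset ℝ) {η : ℝ} (hη : 0 ≤ η) {z : ℂ} (hz : z ∈ Hp) :
    ∏ t ∈ E, ‖b1 t z‖ ^ η ≤ 1 :=
  Finset.prod_le_one (fun t _ => by positivity)
    fun t _ => Real.rpow_le_one (norm_nonneg _) (b1_norm t hz) hη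

theorem GG_le_one (E : Finset ℝ) {η : ℝ} (hη : 0 ≤ η) {z : ℂ} (hz : z ∈ Hp) :
    ‖GG E η z‖ ≤ 1 := by
  rw [GG_norm]
  exact mul_le_one₀ (prod_le E hη hz) (by positivity)
    (Real.rpow_le_one (norm_nonneg _) (b0_norm_le hz) hη)

theorem GG_le_b0 (E : Finset ℝ) {η : ℝ} (hη : 0 ≤ η) {z : ℂ} (hz : z ∈ Hp) :
    ‖GG E η z‖ ≤ ‖b0 z‖ ^ η := by
  rw [GG_norm]
  exact mul_le_of_le_one_left (by positivity) (prod_le E hη hz)

theorem GG_le_b1 (E : Finset ℝ) {η : ℝ} (hη : 0 ≤ η) {z : ℂ} (hz : z ∈ Hp) {t : ℝ}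
    (ht : t ∈ E) : ‖GG E η z‖ ≤ ‖b1 t z‖ ^ η := by
  classical
  rw [GG_norm, ← Finset.mul_prod_erase E _ ht]
  have h1 : ∏ t ∈ E.erase t, ‖b1 t z‖ ^ η ≤ 1 := prod_le _ hη hz
  have h2 : ‖b0 z‖ ^ η ≤ 1 := Real.rpow_le_one (norm_nonneg _) (b0_norm_le hz) hη
  rw [mul_assoc]
  exact mul_le_of_le_one_right (by positivity) (mul_le_one₀ h1 (by positivity) h2)

theorem GG_diff (E : Finset ℝ) (η : ℝ) : DifferentiableOn ℂ (GG E η) Hp := by
  have h1 : ∀ t ∈ E, DifferentiableOn ℂ (fun z => b1 t z ^ (η : ℂ)) Hp := by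
    intro t _
    refine DifferentiableOn.cpow ?_ (differentiableOn_const _) fun z hz => b1_slit t hz
    refine DifferentiableOn.div (by fun_prop) (by fun_prop) fun z hz => den1 t (le_of_lt hz)
  have h2 : DifferentiableOn ℂ (fun z => b0 z ^ (η : ℂ)) Hp := by
    refine DifferentiableOn.cpow ?_ (differentiableOn_const _) fun z hz => b0_slit hz
    refine DifferentiableOn.div (by fun_prop) (by fun_prop) fun z hz => den0 (le_of_lt hz)
  exact (DifferentiableOn.fun_finsetProd h1).mul h2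

theorem step (S : ℂ → ℂ) (E : Finset ℝ) (B : ℝ) (hB1 : 1 ≤ B) (hS : DifferentiableOn ℂ S Hp)
    (hB : ∀ z ∈ Hp, ‖S z‖ ≤ B)
    (hE : ∀ t : ℝ, t ∉ E → ∀ δ > 0, ∀ᶠ z in 𝓝[Hp] (t : ℂ), ‖S z‖ ≤ 1 + δ)
    (η : ℝ) (hη : 0 < η) (δ : ℝ) (hδ : 0 < δ) (z : ℂ) (hz : z ∈ Hp) :
    ‖S z * GG E η z‖ < 1 + δ := by
  by_contra hcon
  push Not at hcon
  set u : ℂ → ℂ := fun z => S z * GG E η z with hu
  have hud : DifferentiableOn ℂ u Hp := hS.mul (GG_diff E η)
  set K : Set ℂ := {z | z ∈ Hp ∧ 1 + δ ≤ ‖u z‖} with hK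
  have hzK : z ∈ K := ⟨hz, hcon⟩
  have hbd : K ⊆ closedBall 0 (B ^ (1 / η) + 1) := by
    rintro w ⟨hw, hw1⟩
    have h1 : ‖u w‖ ≤ B * ‖b0 w‖ ^ η := by
      rw [hu]
      simp only [norm_mul]
      exact mul_le_mul (hB w hw) (GG_le_b0 E hη.le hw) (norm_nonneg _) (by linarith)
    have h2 : 1 ≤ B * ‖b0 w‖ ^ η := by linarith
    have hpos : 0 < ‖w + I‖ := lt_of_lt_of_le one_pos (norm_ge hw)
    rw [b0_norm, one_div, Real.inv_rpow hpos.le] at h2
    have hpos2 : 0 < ‖w + I‖ ^ η := Real.rpow_pos_of_pos hpos η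
    have h3 : ‖w + I‖ ^ η ≤ B := by
      rw [← div_eq_mul_inv, le_div_iff₀ hpos2, one_mul] at h2
      exact h2
    have h4 : ‖w + I‖ ≤ B ^ (1 / η) := by
      have := Real.rpow_le_rpow hpos2.le h3 (z := 1 / η) (by positivity)
      rwa [← Real.rpow_mul hpos.le, mul_one_div_cancel hη.ne', Real.rpow_one] at this
    rw [mem_closedBall_zero_iff]
    calc ‖w‖ = ‖(w + I) - I‖ := by rw [add_sub_cancel_right]
      _ ≤ ‖w + I‖ + ‖I‖ := norm_sub_le _ _
      _ ≤ B ^ (1 / η) + 1 := by rw [norm_I]; linarith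
  have hclosed : IsClosed K := by
    rw [← isOpen_compl_iff, isOpen_iff_mem_nhds]
    intro w hw
    rcases lt_trichotomy w.im 0 with him | him | him
    · have : {x : ℂ | x.im < 0} ∈ 𝓝 w := (isOpen_lt continuous_im continuous_const).mem_nhds him
      filter_upwards [this] with x hx hxK
      exact absurd hxK.1 (not_lt.2 (le_of_lt hx))
    · obtain ⟨t, rfl⟩ : ∃ t : ℝ, w = (t : ℂ) := ⟨w.re, Complex.ext (by simp) (by simp [him])⟩
      have key : ∀ᶠ x in 𝓝[Hp] (t : ℂ), ‖u x‖ < 1 + δ := by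
        by_cases ht : t ∈ E
        · have hcont : ContinuousAt (fun x : ℂ => B * ‖b1 t x‖ ^ η) (t : ℂ) := by
            refine continuousAt_const.mul (ContinuousAt.rpow_const ?_ (Or.inr hη.le))
            refine ContinuousAt.norm ?_
            exact ContinuousAt.div (by fun_prop) (by fun_prop) (den1 t (by simp))
          have hval : B * ‖b1 t (t : ℂ)‖ ^ η < 1 + δ := by
            rw [b1, sub_self, zero_div, norm_zero, Real.zero_rpow hη.ne', mul_zero]
            linarith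
          have h1 : ∀ᶠ x in 𝓝 (t : ℂ), B * ‖b1 t x‖ ^ η < 1 + δ :=
            hcont.eventually (gt_mem_nhds hval)
          filter_upwards [nhdsWithin_le_nhds h1, self_mem_nhdsWithin] with x hx hxH
          refine lt_of_le_of_lt ?_ hx
          rw [hu]
          simp only [norm_mul]
          exact mul_le_mul (hB x hxH) (GG_le_b1 E hη.le hxH ht) (norm_nonneg _) (by linarith)
        · filter_upwards [hE t ht (δ / 2) (by positivity), self_mem_nhdsWithin] with x hx hxH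
          have : ‖u x‖ ≤ (1 + δ / 2) * 1 := by
            rw [hu]
            simp only [norm_mul]
            exact mul_le_mul hx (GG_le_one E hη.le hxH) (norm_nonneg _) (by linarith)
          linarith
      rw [eventually_nhdsWithin_iff] at key
      filter_upwards [key] with x hx hxK
      exact absurd (hx hxK.1) (not_lt.2 hxK.2)
    · have hwH : w ∈ Hp := him
      have hlt : ‖u w‖ < 1 + δ := by
        by_contra h
        exact hw ⟨hwH, not_lt.1 h⟩
      have hc : ContinuousAt (fun x => ‖u x‖) w :=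
        (hud.continuousOn.continuousAt (isOpen_Hp.mem_nhds hwH)).norm
      filter_upwards [hc.eventually (gt_mem_nhds hlt)] with x hx hxK
      exact absurd hx (not_lt.2 hxK.2)
  have hcomp : IsCompact K := (isCompact_closedBall (0 : ℂ) _).of_isClosed_subset hclosed hbd
  have hcont : ContinuousOn (fun x => ‖u x‖) K :=
    (hud.continuousOn.mono fun x hx => hx.1).norm
  obtain ⟨c, hcK, hmax⟩ := hcomp.exists_isMaxOn ⟨z, hzK⟩ hcont
  have hmax' : IsMaxOn (norm ∘ u) Hp c := by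
    intro x hx
    by_cases hxK : x ∈ K
    · exact hmax hxK
    · have : ‖u x‖ < 1 + δ := by
        by_contra h
        exact hxK ⟨hx, not_lt.1 h⟩
      exact (this.trans_le hcK.2).le
  have heq := eqOn_of_isPreconnected_of_isMaxOn_norm preconnected_Hp isOpen_Hp hud hcK.1 hmax'
  set R : ℝ := B ^ (1 / η) + 1 with hR
  have hR0 : 0 ≤ R := by positivity
  have hpt : ((R + 1 : ℝ) : ℂ) * I ∈ Hp := by
    simp [Hp]
    linarith
  have hptK : ((R + 1 : ℝ) : ℂ) * I ∈ K := by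
    refine ⟨hpt, ?_⟩
    have := heq hpt
    simp only [Function.const_apply] at this
    rw [this]
    exact hcK.2
  have := hbd hptK
  rw [mem_closedBall_zero_iff, norm_mul, norm_I, mul_one, Complex.norm_real, Real.norm_eq_abs,
    abs_of_nonneg (by linarith)] at this
  linarith

theorem s_max : S_MAX := by
  intro S E B hEf hS hB hE z hz
  set E' := hEf.toFinset with hE'
  have h1 : ∀ η : ℝ, 0 < η → ‖S z‖ * ((∏ t ∈ E', ‖b1 t z‖ ^ η) * ‖b0 z‖ ^ η) ≤ 1 := by
    intro η hη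
    rw [← GG_norm, ← norm_mul]
    refine le_of_forall_pos_lt_add fun δ hδ => ?_
    refine step S E' (max B 1) (le_max_right _ _) hS (fun w hw => (hB w hw).trans (le_max_left _ _))
      (fun t ht => hE t (by rwa [hE', Set.Finite.mem_toFinset] at ht)) η hη δ hδ z hz
  have hb1 : ∀ t : ℝ, ‖b1 t z‖ ≠ 0 := fun t =>
    norm_ne_zero_iff.2 (slitPlane_ne_zero (b1_slit t hz))
  have hb0 : ‖b0 z‖ ≠ 0 := norm_ne_zero_iff.2 (slitPlane_ne_zero (b0_slit hz))
  have hc : Tendsto (fun η : ℝ => ‖S z‖ * ((∏ t ∈ E', ‖b1 t z‖ ^ η) * ‖b0 z‖ ^ η)) (𝓝[>] 0)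
      (𝓝 (‖S z‖ * ((∏ t ∈ E', ‖b1 t z‖ ^ (0 : ℝ)) * ‖b0 z‖ ^ (0 : ℝ)))) := by
    refine tendsto_nhdsWithin_of_tendsto_nhds ?_
    have hcont : Continuous (fun η : ℝ => ‖S z‖ * ((∏ t ∈ E', ‖b1 t z‖ ^ η) * ‖b0 z‖ ^ η)) := by
      refine continuous_const.mul (Continuous.mul (continuous_finsetProd _ fun t _ => ?_) ?_)
      · exact Real.continuous_const_rpow (hb1 t)
      · exact Real.continuous_const_rpow hb0
    exact hcont.tendsto 0
  simp only [Real.rpow_zero, Finset.prod_const_one, mul_one] at hc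
  refine le_of_tendsto hc ?_
  filter_upwards [self_mem_nhdsWithin] with η hη
  exact h1 η hη

end Y405LW
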