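import Pool.Agent.Y242.LW.Stm

/-!
# The Cayley transform
-/

set_option autoImplicit false

open Set Filter Topology Complex Metric

noncomputable section

namespace Y405LW

open LW242

/-- The Cayley transform. -/
def cay (z : ℂ) : ℂ := (z - I) / (z + I)

/-- The inverse of the Cayley transform. -/
def yac (w : ℂ) : ℂ := I * (1 + w) / (1 - w)

theorem isOpenHp : IsOpen Hp := isOpen_lt continuous_const continuous_im

theorem preHp : IsPreconnected Hp := by
  have : Convex ℝ Hp := convex_halfSpace_im_gt 0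
  exact this.isPreconnected

theorem add_ne {z : ℂ} (hz : z ∈ Hp) : z + I ≠ 0 := by
  intro h
  have h1 := congrArg Complex.im h
  have hz' : 0 < z.im := hz
  simp at h1
  linarith

theorem sub_ne {w : ℂ} (hw : w ∈ ball (0 : ℂ) 1) : 1 - w ≠ 0 := by
  intro h
  rw [mem_ball_zero_iff] at hw
  have : w = 1 := by linear_combination -h
  rw [this, norm_one] at hw
  exact lt_irrefl _ hw

theorem cay_mem {z : ℂ} (hz : z ∈ Hp) : cay z ∈ ball (0 : ℂ) 1 := by
  rw [mem_ball_zero_iff, cay, norm_div, div_lt_one (norm_pos_iff.2 (add_ne hz)),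
    ← sq_lt_sq₀ (norm_nonneg _) (norm_nonneg _), ← normSq_eq_norm_sq, ← normSq_eq_norm_sq,
    normSq_apply, normSq_apply]
  have hz' : 0 < z.im := hz
  simp
  nlinarith

theorem yac_mem {w : ℂ} (hw : w ∈ ball (0 : ℂ) 1) : yac w ∈ Hp := by
  have hn : 0 < normSq (1 - w) := normSq_pos.2 (sub_ne hw)
  have h1 : normSq w < 1 := by
    rw [normSq_eq_norm_sq]
    rw [mem_ball_zero_iff] at hw
    nlinarith [norm_nonneg w]
  have h : (yac w).im = (1 - normSq w) / normSq (1 - w) := by
    rw [yac, Complex.div_im]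
    simp only [mul_re, mul_im, I_re, I_im, add_re, add_im, one_re, one_im, sub_re, sub_im]
    rw [← sub_div]
    congr 1
    rw [normSq_apply]
    ring
  show 0 < (yac w).im
  rw [h]
  exact div_pos (by linarith) hn

theorem yac_cay {z : ℂ} (hz : z ∈ Hp) : yac (cay z) = z := by
  have h1 := add_ne hz
  have h2 : (1 : ℂ) - cay z = 2 * I / (z + I) := by
    rw [cay]
    field_simp
    ring
  have h3 : (1 : ℂ) + cay z = 2 * z / (z + I) := by
    rw [cay]
    field_simp
    ring
  rw [yac, h2, h3]
  field_simp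

theorem cay_yac {w : ℂ} (hw : w ∈ ball (0 : ℂ) 1) : cay (yac w) = w := by
  have h1 := sub_ne hw
  have h2 : yac w + I = 2 * I / (1 - w) := by
    rw [yac]
    field_simp
    ring
  have h3 : yac w - I = 2 * I * w / (1 - w) := by
    rw [yac]
    field_simp
    ring
  rw [cay, h2, h3]
  field_simp

theorem cay_diff : DifferentiableOn ℂ cay Hp :=
  DifferentiableOn.div (by fun_prop) (by fun_prop) fun _ hz => add_ne hz

theorem yac_diff : DifferentiableOn ℂ yac (ball 0 1) :=
  DifferentiableOn.div (by fun_prop) (by fun_prop) fun _ hw => sub_ne hw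

theorem cay_inj : InjOn cay Hp := fun x hx y hy h => by
  rw [← yac_cay hx, ← yac_cay hy, h]

theorem yac_inj : InjOn yac (ball 0 1) := fun x hx y hy h => by
  rw [← cay_yac hx, ← cay_yac hy, h]

/-- Injective holomorphic maps are open. -/
theorem isOpen_image {F : ℂ → ℂ} {U : Set ℂ} (hU : IsOpen U) (hc : IsPreconnected U)
    (hn : U.Nontrivial) (hF : DifferentiableOn ℂ F U) (hi : InjOn F U) : IsOpen (F '' U) := by
  rcases (hF.analyticOnNhd hU).is_constant_or_isOpen hc with ⟨w, hw⟩ | h
  · obtain ⟨x, hx, y, hy, hxy⟩ := hn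
    exact absurd (hi hx hy (by rw [hw x hx, hw y hy])) hxy
  · exact h U subset_rfl hU

theorem ball_nontrivial : (ball (0 : ℂ) 1).Nontrivial :=
  ⟨0, by simp, 1 / 2, by simp; norm_num, by norm_num⟩

end Y405LW
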